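import Mathlib

/-!
# MP_874a88_al : a finitely generated ring extension that is not relatively left perfect

Let `Ω` be an uncountable set, `A = 𝔽₂^Ω`, and let `R` be the free `𝔽₂`-algebra on the set `A`,
with the canonical surjection `f : R → A`. Every quotient of an injective `A`-module is cotorsion
over `R`, but some such quotient is not cotorsion over `A`, since the ideal of the functions with
countable support is not a projective `A`-module.
-/

set_option autoImplicit false

namespace Pool.Agent.Results.MP_874a88_al.NotRelPerfect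

open Function

/-- The left `S`-module `G` is flat, in the form of the equational criterion: every relation
`∑ rᵢ gᵢ = 0` is a consequence of relations in `S`. -/
def FlatMod (S : Type) [Ring S] (G : Type) [AddCommGroup G] [Module S G] : Prop :=
  ∀ (n : ℕ) (r : Fin n → S) (g : Fin n → G), ∑ i, r i • g i = 0 →
    ∃ (m : ℕ) (s : Fin n → Fin m → S) (h : Fin m → G),
      (∀ i, g i = ∑ k, s i k • h k) ∧ ∀ k, ∑ i, r i * s i k = 0

/-- For commutative rings, `FlatMod` is the usual notion of flatness. -/
theorem flatMod_iff (S : Type) [CommRing S] (G : Type) [AddCommGroup G] [Module S G] :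
    FlatMod S G ↔ Module.Flat S G := by
  rw [Module.Flat.iff_forall_isTrivialRelation]
  constructor
  · intro h l f x hfx
    obtain ⟨m, s, y, h1, h2⟩ := h l f x hfx
    exact ⟨m, s, y, h1, h2⟩
  · intro h n r g hrg
    obtain ⟨m, s, y, h1, h2⟩ := h hrg
    exact ⟨m, s, y, h1, h2⟩

/-- The left `S`-module `C` is cotorsion: every short exact sequence `0 → C → M → F → 0` with
`F` flat splits, i.e. `Ext¹ (F, C) = 0`. -/
def Cotorsion (S : Type) [Ring S] (C : Type) [AddCommGroup C] [Module S C] : Prop :=
  ∀ (M F : Type) [AddCommGroup M] [AddCommGroup F] [Module S M] [Module S F]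
    (i : C →ₗ[S] M) (p : M →ₗ[S] F), Injective i → Surjective p → Exact i p → FlatMod S F →
      ∃ ρ : M →ₗ[S] C, ∀ c, ρ (i c) = c

/-- `A` is finitely generated as a right `R`-module, via `f`. -/
def FinGenRight {R A : Type} [Ring R] [Ring A] (f : R →+* A) : Prop :=
  ∃ (n : ℕ) (t : Fin n → A), ∀ a : A, ∃ r : Fin n → R, a = ∑ i, t i * f (r i)

/-! ### Injective `A`-modules are cotorsion over `R` -/

section inj

variable {R A : Type} [Ring R] [Ring A] (f : R →+* A) (hf : Surjective f)

include hf in
theorem cotorsion_of_injective (E : Type) [AddCommGroup E] [Module R E] [Module A E]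
    (hE : ∀ (r : R) (e : E), r • e = f r • e) [Module.Injective A E] : Cotorsion R E := by
  intro M G _ _ _ _ i p hi hp hex hG
  let K : Submodule R M := Submodule.span R {x | ∃ (a : R) (m : M), f a = 0 ∧ x = a • m}
  -- `K` meets `E` trivially
  have hK : ∀ e : E, i e ∈ K → e = 0 := by
    intro e he
    obtain ⟨n, c, g, hg⟩ := Submodule.mem_span_set'.mp he
    choose a m ham using fun j => (g j).2
    let a' : Fin n → R := fun j => c j * a j
    have ha' : ∀ j, f (a' j) = 0 := fun j => by
      show f (c j * a j) = 0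
      rw [map_mul, (ham j).1, mul_zero]
    have hsum : ∑ j, a' j • m j = i e := by
      rw [← hg]
      refine Finset.sum_congr rfl fun j _ => ?_
      rw [(ham j).2, smul_smul]
    have hrel : ∑ j, a' j • p (m j) = 0 := by
      have := congrArg p hsum
      rw [map_sum, hex.apply_apply_eq_zero] at this
      simpa only [map_smul] using this
    obtain ⟨l, s, h, hs1, hs2⟩ := hG n a' (fun j => p (m j)) hrel
    choose η hη using fun k => hp (h k)
    have hmem : ∀ j, ∃ e', i e' = m j - ∑ k, s j k • η k := by
      intro j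
      apply (hex _).mp
      rw [map_sub, map_sum, sub_eq_zero, hs1 j]
      refine Finset.sum_congr rfl fun k _ => ?_
      rw [map_smul, hη]
    choose e' he' using hmem
    have h1 : i e = i (∑ j, a' j • e' j) := by
      rw [← hsum, map_sum]
      have h2 : ∀ j, a' j • m j = i (a' j • e' j) + ∑ k, (a' j * s j k) • η k := by
        intro j
        rw [map_smul, he' j, smul_sub, Finset.smul_sum]
        simp only [smul_smul]
        rw [sub_add_cancel]
      rw [Finset.sum_congr rfl fun j _ => h2 j, Finset.sum_add_distrib, Finset.sum_comm]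
      have h3 : ∀ k, ∑ j, (a' j * s j k) • η k = 0 := by
        intro k
        rw [← Finset.sum_smul, hs2 k, zero_smul]
      rw [Finset.sum_congr rfl fun k _ => h3 k, Finset.sum_const_zero, add_zero]
    have h4 : e = ∑ j, a' j • e' j := hi h1
    rw [h4]
    apply Finset.sum_eq_zero
    intro j _
    rw [hE, ha' j, zero_smul]
  -- the `A`-module `M / K`
  have hker : RingHom.ker f ≤ RingHom.ker (Module.toAddMonoidEnd R (M ⧸ K)) := by
    intro a ha
    rw [RingHom.mem_ker] at ha ⊢
    ext x
    obtain ⟨m, rfl⟩ := Submodule.mkQ_surjective K x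
    show a • K.mkQ m = 0
    rw [← map_smul, Submodule.mkQ_apply, Submodule.Quotient.mk_eq_zero]
    exact Submodule.subset_span ⟨a, m, ha, rfl⟩
  let φ : A →+* AddMonoid.End (M ⧸ K) :=
    f.liftOfRightInverse (surjInv hf) (rightInverse_surjInv hf)
      ⟨Module.toAddMonoidEnd R (M ⧸ K), hker⟩
  have hφ : ∀ (r : R) (x : M ⧸ K), φ (f r) x = r • x := by
    intro r x
    show (f.liftOfRightInverse (surjInv hf) (rightInverse_surjInv hf)
      ⟨Module.toAddMonoidEnd R (M ⧸ K), hker⟩) (f r) x = r • x
    rw [RingHom.liftOfRightInverse_comp_apply]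
    rfl
  let : Module A (M ⧸ K) := Module.compHom (M ⧸ K) φ
  have hsm : ∀ (r : R) (x : M ⧸ K), f r • x = r • x := hφ
  let j : E →ₗ[A] (M ⧸ K) :=
    { toFun := fun e => K.mkQ (i e)
      map_add' := fun x y => by rw [map_add, map_add]
      map_smul' := fun a x => by
        obtain ⟨r, rfl⟩ := hf a
        rw [← hE, map_smul, map_smul, RingHom.id_apply, hsm] }
  have hj : Injective j := by
    rw [injective_iff_map_eq_zero]
    intro e he
    apply hK
    have : K.mkQ (i e) = 0 := he
    rwa [Submodule.mkQ_apply, Submodule.Quotient.mk_eq_zero] at this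
  obtain ⟨h, hh⟩ := Module.Injective.out j hj (LinearMap.id (R := A) (M := E))
  refine ⟨{ toFun := fun m => h (K.mkQ m)
            map_add' := fun x y => by rw [map_add, map_add]
            map_smul' := fun r x => by
              rw [map_smul, ← hsm, map_smul, RingHom.id_apply, hE] }, ?_⟩
  intro c
  exact hh c

end inj

/-! ### Quotients of cotorsion modules over a free algebra are cotorsion -/

section free

variable {k X : Type} [Field k]

theorem linear_of_gen {V W : Type} [AddCommGroup V] [AddCommGroup W]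
    [Module (FreeAlgebra k X) V] [Module (FreeAlgebra k X) W] (P : V →+ W)
    (hk : ∀ (c : k) (v : V), P (algebraMap k (FreeAlgebra k X) c • v) =
      algebraMap k (FreeAlgebra k X) c • P v)
    (hx : ∀ (x : X) (v : V), P (FreeAlgebra.ι k x • v) = FreeAlgebra.ι k x • P v)
    (r : FreeAlgebra k X) : ∀ v, P (r • v) = r • P v := by
  induction r using FreeAlgebra.induction with
  | grade0 c => exact hk c
  | grade1 x => exact hx x
  | mul a b ha hb => intro v; rw [mul_smul, mul_smul, ha, hb]
  | add a b ha hb => intro v; rw [add_smul, add_smul, map_add, ha, hb]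

/-- a copy of `E × G`, to carry another module structure -/
def Tw (E G : Type) : Type := E × G

instance (E G : Type) [AddCommGroup E] [AddCommGroup G] : AddCommGroup (Tw E G) :=
  inferInstanceAs (AddCommGroup (E × G))

theorem cotorsion_quotient {E C : Type} [AddCommGroup E] [AddCommGroup C]
    [Module (FreeAlgebra k X) E] [Module (FreeAlgebra k X) C]
    (q : E →ₗ[FreeAlgebra k X] C) (hq : Surjective q) (hE : Cotorsion (FreeAlgebra k X) E) :
    Cotorsion (FreeAlgebra k X) C := by
  intro M G _ _ _ _ i p hi hp hex hG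
  let : Module k E := Module.compHom E (algebraMap k (FreeAlgebra k X))
  let : Module k C := Module.compHom C (algebraMap k (FreeAlgebra k X))
  let : Module k M := Module.compHom M (algebraMap k (FreeAlgebra k X))
  let : Module k G := Module.compHom G (algebraMap k (FreeAlgebra k X))
  have sE : ∀ (c : k) (e : E), c • e = algebraMap k (FreeAlgebra k X) c • e := fun _ _ => rfl
  have sC : ∀ (c : k) (e : C), c • e = algebraMap k (FreeAlgebra k X) c • e := fun _ _ => rfl
  have sM : ∀ (c : k) (e : M), c • e = algebraMap k (FreeAlgebra k X) c • e := fun _ _ => rfl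
  have sG : ∀ (c : k) (e : G), c • e = algebraMap k (FreeAlgebra k X) c • e := fun _ _ => rfl
  have : IsScalarTower k (FreeAlgebra k X) E :=
    ⟨fun c r e => by rw [sE, Algebra.smul_def, mul_smul]⟩
  have : IsScalarTower k (FreeAlgebra k X) C :=
    ⟨fun c r e => by rw [sC, Algebra.smul_def, mul_smul]⟩
  have : IsScalarTower k (FreeAlgebra k X) M :=
    ⟨fun c r e => by rw [sM, Algebra.smul_def, mul_smul]⟩
  have : IsScalarTower k (FreeAlgebra k X) G :=
    ⟨fun c r e => by rw [sG, Algebra.smul_def, mul_smul]⟩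
  obtain ⟨s, hs⟩ := (p.restrictScalars k).exists_rightInverse_of_surjective
    (LinearMap.range_eq_top.mpr hp)
  obtain ⟨t, ht⟩ := (q.restrictScalars k).exists_rightInverse_of_surjective
    (LinearMap.range_eq_top.mpr hq)
  obtain ⟨j, hj⟩ := (i.restrictScalars k).exists_leftInverse_of_injective
    (LinearMap.ker_eq_bot.mpr hi)
  have hs' : ∀ g, p (s g) = g := fun g => LinearMap.congr_fun hs g
  have ht' : ∀ g, q (t g) = g := fun g => LinearMap.congr_fun ht g
  have hj' : ∀ c, j (i c) = c := fun g => LinearMap.congr_fun hj g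
  -- the cocycle
  let L : ∀ (V : Type) [AddCommGroup V] [Module (FreeAlgebra k X) V] [Module k V]
    [IsScalarTower k (FreeAlgebra k X) V], X → Module.End k V :=
    fun V _ _ _ _ x => Algebra.lsmul k k V (FreeAlgebra.ι k x)
  let D : X → (G →ₗ[k] E) := fun x => t ∘ₗ j ∘ₗ (L M x ∘ₗ s - s ∘ₗ L G x)
  have hD : ∀ x g, D x g = t (j (FreeAlgebra.ι k x • s g - s (FreeAlgebra.ι k x • g))) :=
    fun x g => rfl
  have hD' : ∀ x g, i (q (D x g)) = FreeAlgebra.ι k x • s g - s (FreeAlgebra.ι k x • g) := by
    intro x g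
    rw [hD, ht']
    have : p (FreeAlgebra.ι k x • s g - s (FreeAlgebra.ι k x • g)) = 0 := by
      rw [map_sub, map_smul, hs', hs', sub_self]
    obtain ⟨c, hc⟩ := (hex _).mp this
    rw [← hc, hj']
  let T : X → Module.End k (E × G) := fun x =>
    LinearMap.prod (L E x ∘ₗ LinearMap.fst k E G + D x ∘ₗ LinearMap.snd k E G)
      (L G x ∘ₗ LinearMap.snd k E G)
  have hT : ∀ x (z : E × G), T x z =
      (FreeAlgebra.ι k x • z.1 + D x z.2, FreeAlgebra.ι k x • z.2) := fun x z => rfl
  let φ : FreeAlgebra k X →ₐ[k] Module.End k (E × G) := FreeAlgebra.lift k T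
  let mVk : Module k (Tw E G) := inferInstanceAs (Module k (E × G))
  let mV : Module (FreeAlgebra k X) (Tw E G) :=
    Module.compHom (E × G) (φ : FreeAlgebra k X →+* Module.End k (E × G))
  have sV : ∀ (r : FreeAlgebra k X) (z : Tw E G), r • z = φ r z := fun _ _ => rfl
  have sVx : ∀ (x : X) (z : Tw E G), FreeAlgebra.ι k x • z =
      ((FreeAlgebra.ι k x • z.1 + D x z.2, FreeAlgebra.ι k x • z.2) : E × G) := by
    intro x z
    rw [sV]
    show FreeAlgebra.lift k T (FreeAlgebra.ι k x) z = _
    rw [FreeAlgebra.lift_ι_apply]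
    exact hT x z
  have sVk : ∀ (c : k) (z : Tw E G), algebraMap k (FreeAlgebra k X) c • z =
      ((algebraMap k (FreeAlgebra k X) c • z.1, algebraMap k (FreeAlgebra k X) c • z.2) :
        E × G) := by
    intro c z
    rw [sV, AlgHom.commutes]
    rfl
  -- the maps
  let i' : E →ₗ[FreeAlgebra k X] (Tw E G) :=
    { toFun := fun e => ((e, 0) : E × G)
      map_add' := fun x y => by
        show ((x + y, 0) : E × G) = (x + y, 0 + 0)
        rw [add_zero]
      map_smul' := fun r x => by
        rw [RingHom.id_apply]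
        refine linear_of_gen (W := Tw E G) (AddMonoidHom.inl E G) ?_ ?_ r x
        · intro c v
          rw [sVk]
          show ((algebraMap k (FreeAlgebra k X) c • v, 0) : E × G) =
            (algebraMap k (FreeAlgebra k X) c • v, algebraMap k (FreeAlgebra k X) c • 0)
          rw [smul_zero]
        · intro x v
          rw [sVx]
          show ((FreeAlgebra.ι k x • v, 0) : E × G) =
            (FreeAlgebra.ι k x • v + D x 0, FreeAlgebra.ι k x • 0)
          rw [map_zero, smul_zero, add_zero] }
  let p' : (Tw E G) →ₗ[FreeAlgebra k X] G :=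
    { toFun := fun z => z.2
      map_add' := fun x y => rfl
      map_smul' := fun r x => by
        rw [RingHom.id_apply]
        refine linear_of_gen (V := Tw E G) (AddMonoidHom.snd E G) ?_ ?_ r x
        · intro c v
          rw [sVk]
          rfl
        · intro x v
          rw [sVx]
          rfl }
  let P : (Tw E G) →ₗ[FreeAlgebra k X] M :=
    { toFun := fun z => i (q z.1) + s z.2
      map_add' := fun x y => by
        show i (q (x.1 + y.1)) + s (x.2 + y.2) = _
        rw [map_add, map_add, map_add]
        abel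
      map_smul' := fun r x => by
        rw [RingHom.id_apply]
        refine linear_of_gen (V := Tw E G)
          ((i.toAddMonoidHom.comp q.toAddMonoidHom).comp (AddMonoidHom.fst E G) +
            s.toAddMonoidHom.comp (AddMonoidHom.snd E G)) ?_ ?_ r x
        · intro c v
          rw [sVk]
          show i (q (algebraMap k (FreeAlgebra k X) c • v.1)) +
            s (algebraMap k (FreeAlgebra k X) c • v.2) =
            algebraMap k (FreeAlgebra k X) c • (i (q v.1) + s v.2)
          rw [smul_add, map_smul, map_smul, ← sG, map_smul, sM]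
        · intro x v
          rw [sVx]
          show i (q (FreeAlgebra.ι k x • v.1 + D x v.2)) + s (FreeAlgebra.ι k x • v.2) =
            FreeAlgebra.ι k x • (i (q v.1) + s v.2)
          rw [smul_add, map_add, map_add, hD', map_smul, map_smul]
          abel }
  obtain ⟨ρ, hρ⟩ := hE (Tw E G) G i' p' (fun x y h => (Prod.mk.inj h).1)
    (fun g => ⟨((0, g) : E × G), rfl⟩) (fun z => ⟨fun h => ⟨z.1, Prod.ext rfl h.symm⟩, by
      rintro ⟨e, rfl⟩; rfl⟩) hG
  -- descend to `M`
  have hPs : Surjective P := by
    intro m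
    have h1 : p (m - s (p m)) = 0 := by rw [map_sub, hs', sub_self]
    obtain ⟨c, hc⟩ := (hex _).mp h1
    obtain ⟨e, rfl⟩ := hq c
    refine ⟨((e, p m) : E × G), ?_⟩
    show i (q e) + s (p m) = m
    rw [hc, sub_add_cancel]
  have hPk : LinearMap.ker P ≤ LinearMap.ker (q ∘ₗ ρ) := by
    intro z hz
    rw [LinearMap.mem_ker] at hz ⊢
    have h0 : i (q z.1) + s z.2 = 0 := hz
    have h1 : z.2 = 0 := by
      have := congrArg p h0
      rw [map_add, hex.apply_apply_eq_zero, hs', zero_add, map_zero] at this
      exact this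
    have h2 : z = i' z.1 := Prod.ext rfl h1
    rw [h1, map_zero, add_zero] at h0
    have h3 : q z.1 = 0 := hi (by rw [h0, map_zero])
    rw [LinearMap.comp_apply, h2, hρ]
    exact h3
  let ρ' : M →ₗ[FreeAlgebra k X] C :=
    { toFun := fun m => q (ρ (surjInv hPs m))
      map_add' := fun x y => by
        have : surjInv hPs (x + y) - (surjInv hPs x + surjInv hPs y) ∈ LinearMap.ker P := by
          rw [LinearMap.mem_ker, map_sub, map_add, surjInv_eq hPs, surjInv_eq hPs, surjInv_eq hPs, sub_self]
        have h := hPk this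
        rw [LinearMap.mem_ker, map_sub, map_add, sub_eq_zero] at h
        exact h
      map_smul' := fun r x => by
        have : surjInv hPs (r • x) - r • surjInv hPs x ∈ LinearMap.ker P := by
          rw [LinearMap.mem_ker, map_sub, map_smul, surjInv_eq hPs, surjInv_eq hPs, sub_self]
        have h := hPk this
        rw [LinearMap.mem_ker, map_sub, map_smul, sub_eq_zero] at h
        exact h }
  refine ⟨ρ', fun c => ?_⟩
  obtain ⟨e, rfl⟩ := hq c
  have : surjInv hPs (i (q e)) - i' e ∈ LinearMap.ker P := by
    rw [LinearMap.mem_ker, map_sub, surjInv_eq hPs]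
    show i (q e) - (i (q e) + s 0) = 0
    rw [map_zero, add_zero, sub_self]
  have h := hPk this
  rw [LinearMap.mem_ker, map_sub, sub_eq_zero, LinearMap.comp_apply, LinearMap.comp_apply, hρ] at h
  exact h

end free

/-! ### Failure over `A` from a non-projective left ideal -/

theorem exists_injective (A : Type) [Ring A] (K : Type) [AddCommGroup K] [Module A K] :
    ∃ (E : Type) (_ : AddCommGroup E) (_ : Module A E) (_ : Module.Injective A E)
      (ι : K →ₗ[A] E), Injective ι := by
  let K' : ModuleCat.{0} A := ModuleCat.of A K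
  let E' : ModuleCat.{0} A := CategoryTheory.Injective.under K'
  have h1 : CategoryTheory.Injective E' := inferInstance
  have h2 : Module.Injective A E' := Module.injective_module_of_injective_object A E'
  have h3 : CategoryTheory.Mono (CategoryTheory.Injective.ι K') := inferInstance
  exact ⟨E', inferInstance, inferInstance, h2, (CategoryTheory.Injective.ι K').hom,
    (ModuleCat.mono_iff_injective _).mp h3⟩

/-- the canonical presentation of `J` -/
noncomputable def pres {A : Type} [Ring A] (J : Submodule A A) : (J →₀ A) →ₗ[A] J :=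
  Finsupp.linearCombination A (id : J → J)

theorem pres_surj {A : Type} [Ring A] (J : Submodule A A) : Surjective (pres J) := by
  intro j
  exact ⟨Finsupp.single j 1, by rw [pres, Finsupp.linearCombination_single, one_smul, id]⟩

theorem exists_not_cotorsion {A : Type} [Ring A]
    (hflat : ∀ (G : Type) [AddCommGroup G] [Module A G], FlatMod A G) (J : Submodule A A)
    (hJ : ¬ ∃ σ : J →ₗ[A] (J →₀ A), ∀ x, pres J (σ x) = x) :
    ∃ (E : Type) (_ : AddCommGroup E) (_ : Module A E) (_ : Module.Injective A E)
      (N : Submodule A E), ¬ Cotorsion A (E ⧸ N) := by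
  obtain ⟨E, iE1, iE2, iE3, ι, hι⟩ := exists_injective A (LinearMap.ker (pres J))
  obtain ⟨ψ, hψ⟩ := iE3.out (X := LinearMap.ker (pres J)) (Y := J →₀ A)
    (LinearMap.ker (pres J)).subtype (Submodule.subtype_injective _) ι
  have hψi : ∀ x y, pres J x = 0 → pres J y = 0 → ψ x = ψ y → x = y := by
    intro x y hx hy hxy
    have h1 : ι ⟨x, hx⟩ = ι ⟨y, hy⟩ := by
      rw [← hψ, ← hψ]
      exact hxy
    exact congrArg Subtype.val (hι h1)
  let D : Submodule A (E × A) := LinearMap.range (ψ.prod (J.subtype ∘ₗ pres J))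
  let N : Submodule A E := D.comap (LinearMap.inl A E A)
  refine ⟨E, inferInstance, inferInstance, inferInstance, N, fun hcot => hJ ?_⟩
  let i : (E ⧸ N) →ₗ[A] ((E × A) ⧸ D) := Submodule.mapQ N D (LinearMap.inl A E A) le_rfl
  have hi : Injective i := by
    rw [injective_iff_map_eq_zero]
    intro x hx
    obtain ⟨e, rfl⟩ := Submodule.mkQ_surjective N x
    rw [Submodule.mkQ_apply, Submodule.mapQ_apply, Submodule.Quotient.mk_eq_zero] at hx
    rw [Submodule.mkQ_apply, Submodule.Quotient.mk_eq_zero]
    exact hx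
  obtain ⟨ρ, hρ⟩ := hcot _ (((E × A) ⧸ D) ⧸ LinearMap.range i) i (LinearMap.range i).mkQ hi
    (Submodule.mkQ_surjective _) (LinearMap.exact_map_mkQ_range i) (hflat _)
  obtain ⟨e₀, he₀⟩ := Submodule.mkQ_surjective N (ρ (D.mkQ (0, 1)))
  have hκ : ∀ x : J →₀ A, ∃ y, pres J y = 0 ∧ ψ y = ψ x + (pres J x : A) • e₀ := by
    intro x
    have h1 : D.mkQ (ψ x, (pres J x : A)) = 0 := by
      rw [Submodule.mkQ_apply, Submodule.Quotient.mk_eq_zero]
      exact ⟨x, rfl⟩
    have h2 : ((ψ x, (pres J x : A)) : E × A) =
        LinearMap.inl A E A (ψ x) + (pres J x : A) • ((0, 1) : E × A) := by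
      simp
    have h3 : N.mkQ (ψ x + (pres J x : A) • e₀) = 0 := by
      have h4 : i (N.mkQ (ψ x)) = D.mkQ (LinearMap.inl A E A (ψ x)) := rfl
      rw [map_add, map_smul, he₀, ← hρ (N.mkQ (ψ x)), h4, ← map_smul, ← map_smul, ← map_add,
        ← map_add, ← h2, h1, map_zero]
    rw [Submodule.mkQ_apply, Submodule.Quotient.mk_eq_zero] at h3
    obtain ⟨y, hy⟩ := h3
    have h5 := congrArg Prod.fst hy
    have h6 := congrArg Prod.snd hy
    exact ⟨y, Subtype.ext h6, h5⟩
  choose κ hκ1 hκ2 using hκ
  let κ' : (J →₀ A) →ₗ[A] (J →₀ A) :=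
    { toFun := κ
      map_add' := fun x y => by
        apply hψi _ _ (hκ1 _) (by rw [map_add, hκ1, hκ1, add_zero])
        rw [map_add, hκ2, hκ2, hκ2, map_add, map_add, Submodule.coe_add, add_smul]
        abel
      map_smul' := fun a x => by
        rw [RingHom.id_apply]
        apply hψi _ _ (hκ1 _) (by rw [map_smul, hκ1, smul_zero])
        rw [map_smul, hκ2, hκ2, map_smul, map_smul, Submodule.coe_smul, smul_add, smul_assoc] }
  have hκ' : ∀ x, pres J x = 0 → κ' x = x := by
    intro x hx
    apply hψi _ _ (hκ1 _) hx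
    rw [hκ2, hx, Submodule.coe_zero, zero_smul, add_zero]
  let τ : (J →₀ A) →ₗ[A] (J →₀ A) := LinearMap.id - κ'
  have hτ : LinearMap.ker (pres J) ≤ LinearMap.ker τ := by
    intro x hx
    rw [LinearMap.mem_ker, LinearMap.sub_apply, LinearMap.id_apply, hκ' x hx, sub_self]
  have hπτ : ∀ x, pres J (τ x) = pres J x := by
    intro x
    rw [LinearMap.sub_apply, LinearMap.id_apply, map_sub]
    have : pres J (κ' x) = 0 := hκ1 x
    rw [this, sub_zero]
  let e := (pres J).quotKerEquivOfSurjective (pres_surj J)
  refine ⟨(LinearMap.ker (pres J)).liftQ τ hτ ∘ₗ e.symm.toLinearMap, fun x => ?_⟩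
  obtain ⟨y, rfl⟩ := pres_surj J x
  have h1 : e.symm (pres J y) = (LinearMap.ker (pres J)).mkQ y := by
    rw [LinearEquiv.symm_apply_eq]
    rfl
  rw [LinearMap.comp_apply, LinearEquiv.coe_coe, h1, Submodule.mkQ_apply, Submodule.liftQ_apply,
    hπτ]

/-! ### The ring `𝔽₂^Ω` -/

section Boolean

variable {Ω : Type}

theorem zmod2 (a : ZMod 2) (ha : a ≠ 0) : a = 1 := by
  revert a
  decide

theorem flat_all (G : Type) [AddCommGroup G] [Module (Ω → ZMod 2) G] :
    FlatMod (Ω → ZMod 2) G := by
  classical
  intro n r g hrg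
  let t : Fin n → Ω → ZMod 2 := fun i ω =>
    if h : ∃ j, r j ω ≠ 0 then (if i = h.choose then 1 else 0) else 0
  have ht : ∀ k, (∑ i, r i * t i) * r k = r k := by
    intro k
    funext ω
    rw [Pi.mul_apply, Finset.sum_apply]
    by_cases hk : r k ω = 0
    · rw [hk, mul_zero]
    · have h : ∃ j, r j ω ≠ 0 := ⟨k, hk⟩
      have h1 : ∑ i, (r i * t i) ω = 1 := by
        have h2 : ∀ i, (r i * t i) ω = if i = h.choose then r i ω else 0 := by
          intro i
          rw [Pi.mul_apply]
          show r i ω * (if h : ∃ j, r j ω ≠ 0 then (if i = h.choose then 1 else 0) else 0) = _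
          rw [dif_pos h]
          split_ifs
          · rw [mul_one]
          · rw [mul_zero]
        rw [Finset.sum_congr rfl fun i _ => h2 i, Finset.sum_ite_eq' Finset.univ h.choose,
          if_pos (Finset.mem_univ _)]
        exact zmod2 _ h.choose_spec
      rw [h1, one_mul]
  refine ⟨n, fun i k => (if i = k then 1 else 0) - t i * r k, g, ?_, ?_⟩
  · intro i
    simp only [sub_smul, Finset.sum_sub_distrib, mul_smul, ← Finset.smul_sum, hrg, smul_zero,
      sub_zero, ite_smul, one_smul, zero_smul]
    rw [Finset.sum_ite_eq Finset.univ i, if_pos (Finset.mem_univ _)]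
  · intro k
    simp only [mul_sub, Finset.sum_sub_distrib, ← mul_assoc, ← Finset.sum_mul, ht k]
    simp

/-- the ideal of the functions with countable support -/
def cs (Ω : Type) : Submodule (Ω → ZMod 2) (Ω → ZMod 2) where
  carrier := {x | {ω | x ω ≠ 0}.Countable}
  zero_mem' := by simp
  add_mem' := by
    intro x y hx hy
    refine (hx.union hy).mono ?_
    intro ω hω
    by_contra h
    rw [Set.mem_union, not_or] at h
    simp only [Set.mem_ofPred_eq, not_not] at h
    apply hω
    rw [Pi.add_apply, h.1, h.2, add_zero]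
  smul_mem' := by
    intro a x hx
    refine hx.mono ?_
    intro ω hω h
    apply hω
    rw [smul_eq_mul, Pi.mul_apply, h, mul_zero]

theorem cs_not_proj [Uncountable Ω] :
    ¬ ∃ σ : cs Ω →ₗ[Ω → ZMod 2] (cs Ω →₀ (Ω → ZMod 2)), ∀ x, pres (cs Ω) (σ x) = x := by
  classical
  rintro ⟨σ, hσ⟩
  -- indicator functions
  let ind : ∀ S : Set Ω, S.Countable → cs Ω := fun S hS =>
    ⟨fun ω => if ω ∈ S then 1 else 0, hS.mono (fun ω hω => by
      by_contra h
      exact hω (if_neg h))⟩
  have hind1 : ∀ S hS ω, ω ∈ S → (ind S hS : Ω → ZMod 2) ω = 1 := fun _ _ _ h => if_pos h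
  have hind0 : ∀ S hS ω, ω ∉ S → (ind S hS : Ω → ZMod 2) ω = 0 := fun _ _ _ h => if_neg h
  let e : Ω → cs Ω := fun ω => ind {ω} (Set.countable_singleton ω)
  have he1 : ∀ ω, (e ω : Ω → ZMod 2) ω = 1 := fun ω =>
    hind1 _ (Set.countable_singleton ω) _ rfl
  have he0 : ∀ ω ω', ω' ≠ ω → (e ω : Ω → ZMod 2) ω' = 0 := fun ω ω' h =>
    hind0 _ (Set.countable_singleton ω) _ h
  -- the coefficients
  let u : cs Ω → Ω → ZMod 2 := fun j ω => σ (e ω) j ω
  have hu : ∀ (x j : cs Ω) ω, σ x j ω = (x : Ω → ZMod 2) ω * u j ω := by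
    intro x j ω
    have h1 : ((e ω : cs Ω) : Ω → ZMod 2) • x =
        ((fun _ => (x : Ω → ZMod 2) ω) : Ω → ZMod 2) • e ω := by
      apply Subtype.ext
      funext ω'
      rw [Submodule.coe_smul, Submodule.coe_smul, smul_eq_mul, smul_eq_mul, Pi.mul_apply,
        Pi.mul_apply]
      by_cases h : ω' = ω
      · subst h
        rw [mul_comm]
      · rw [he0 _ _ h, zero_mul, mul_zero]
    have h2 := congrArg (fun z => σ z j ω) h1
    simp only [map_smul] at h2
    rw [Finsupp.smul_apply, Finsupp.smul_apply, smul_eq_mul, smul_eq_mul, Pi.mul_apply,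
      Pi.mul_apply, he1, one_mul] at h2
    exact h2
  have hex : ∀ ω, ∃ j : cs Ω, u j ω ≠ 0 ∧ (j : Ω → ZMod 2) ω ≠ 0 := by
    intro ω
    by_contra hcon
    push Not at hcon
    have h1 : (pres (cs Ω) (σ (e ω)) : Ω → ZMod 2) ω = 1 := by rw [hσ, he1]
    rw [pres, Finsupp.linearCombination_apply, Finsupp.sum,
      Submodule.coe_sum, Finset.sum_apply] at h1
    rw [Finset.sum_eq_zero] at h1
    · exact zero_ne_one h1
    · intro j _
      rw [Submodule.coe_smul, smul_eq_mul, Pi.mul_apply, id]
      by_cases h2 : u j ω = 0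
      · have : σ (e ω) j ω = 0 := h2
        rw [this, zero_mul]
      · rw [hcon j h2, mul_zero]
  -- infinitely many classes
  let D : cs Ω → Set Ω := fun j => {ω | u j ω ≠ 0 ∧ (j : Ω → ZMod 2) ω ≠ 0}
  have hD : ∀ j, (D j).Countable := fun j => j.2.mono (fun ω hω => hω.2)
  let S : Set (cs Ω) := {j | (D j).Nonempty}
  have hS : S.Infinite := by
    intro hfin
    have : (Set.univ : Set Ω) ⊆ ⋃ j ∈ S, D j := by
      intro ω _
      obtain ⟨j, hj⟩ := hex ω
      exact Set.mem_biUnion (show j ∈ S from ⟨ω, hj⟩) hj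
    exact Set.not_countable_univ ((hfin.countable.biUnion fun j _ => hD j).mono this)
  let a : ℕ → cs Ω := fun n => (hS.natEmbedding S n : cs Ω)
  have ha : Injective a := fun m n h => (hS.natEmbedding S).injective (Subtype.ext h)
  have haS : ∀ n, (D (a n)).Nonempty := fun n => (hS.natEmbedding S n).2
  choose w hw using haS
  let x : cs Ω := ind (Set.range w) (Set.countable_range w)
  have hx : ∀ n, σ x (a n) ≠ 0 := by
    intro n h
    have h1 := hu x (a n) (w n)
    rw [h, hind1 _ (Set.countable_range w) _ ⟨n, rfl⟩, one_mul] at h1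
    exact (hw n).1 h1.symm
  have : Set.range a ⊆ ((σ x).support : Set (cs Ω)) := by
    rintro _ ⟨n, rfl⟩
    simpa using hx n
  exact Set.infinite_range_of_injective ha ((Finset.finite_toSet _).subset this)

end Boolean

/-- There is a surjective ring homomorphism `f : R → A` (so `A` is finitely generated as a right
`R`-module), with `A` commutative, and a left `A`-module `C` which is cotorsion as a left
`R`-module but not as a left `A`-module. -/
theorem result : ∃ (R A : Type) (_ : Ring R) (_ : Ring A) (f : R →+* A), Surjective f ∧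
    (∀ a b : A, a * b = b * a) ∧ FinGenRight f ∧
    ∃ (C : Type) (_ : AddCommGroup C) (_ : Module A C),
      @Cotorsion R _ C _ (Module.compHom C f) ∧ ¬ Cotorsion A C := by
  let A := Set ℕ → ZMod 2
  let R := FreeAlgebra (ZMod 2) A
  let f : R →+* A := (FreeAlgebra.lift (ZMod 2) (id : A → A)).toRingHom
  have hfι : ∀ a : A, f (FreeAlgebra.ι (ZMod 2) a) = a := fun a =>
    FreeAlgebra.lift_ι_apply (R := ZMod 2) (id : A → A) a
  have hf : Surjective f := fun a => ⟨_, hfι a⟩
  have : Uncountable (Set ℕ) := not_countable_iff.mp fun h => by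
    obtain ⟨g, hg⟩ := h.exists_injective_nat
    exact Function.cantor_injective g hg
  obtain ⟨E, _, _, _, N, hN⟩ := exists_not_cotorsion (A := A) (fun G => flat_all G) (cs (Set ℕ))
    cs_not_proj
  refine ⟨R, A, inferInstance, inferInstance, f, hf, fun a b => mul_comm a b, ⟨1, fun _ => 1,
    fun a =>
    ⟨fun _ => FreeAlgebra.ι (ZMod 2) a, by simp [hfι]⟩⟩, E ⧸ N, inferInstance, inferInstance, ?_,
    hN⟩
  let mE : Module R E := Module.compHom E f
  let mC : Module R (E ⧸ N) := Module.compHom (E ⧸ N) f
  have hE : Cotorsion R E := cotorsion_of_injective f hf E (fun _ _ => rfl)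
  let q : E →ₗ[R] (E ⧸ N) :=
    { toFun := N.mkQ
      map_add' := fun x y => map_add _ x y
      map_smul' := fun r x => map_smul N.mkQ (f r) x }
  exact cotorsion_quotient q (Submodule.mkQ_surjective N) hE

end Pool.Agent.Results.MP_874a88_al.NotRelPerfect
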